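import Pool.Agent.P.MP_a31c1c_an.InfEx

set_option autoImplicit false

namespace Pool.Agent.Results.MP_a31c1c_an.ParabolicLeaves

/-- A foliation of the projective plane of degree `d ≥ 1` with finitely many singular points and
invariant line at infinity `z 0 = 0`, hyperbolic at the singular points on that line, with no
condition at the other singular points. A leaf that is not contained in an algebraic curve is
parabolic (it has no bounded non-constant subharmonic function) if and only if the foliation is the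
pull-back of a linear foliation `dx / x = ν dy / y`, `ν` not real, by a dominant rational map
`(x, y) = (A / B, C / D)` whose numerators and denominators define invariant curves. -/
theorem result :
  ∀ (d : ℕ) (F : Fin 3 → MvPolynomial (Fin 3) ℂ), 1 ≤ d →
    (∀ i, (F i).IsHomogeneous d) →
    ∀ (V : (Fin 3 → ℂ) → (Fin 3 → ℂ)), (∀ z i, V z i = MvPolynomial.eval z (F i)) →
    ∀ (Sing : (Fin 3 → ℂ) → Prop), (∀ z, Sing z ↔ (z ≠ 0 ∧ ∃ c : ℂ, V z = c • z)) →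
    (∃ S : Finset (Fin 3 → ℂ), ∀ z, Sing z → ∃ s ∈ S, ∃ t : ℂ, z = t • s) →
    (∀ z : Fin 3 → ℂ, z 0 = 0 → V z 0 = 0) →
    (∀ (a : Fin 3 → ℂ) (c : ℂ), a ≠ 0 → a 0 = 0 → V a = c • a → ∃ ν₁ ν₂ : ℂ,
        (Matrix.of fun i j => MvPolynomial.eval a (MvPolynomial.pderiv j (F i))).charpoly =
          (Polynomial.X - Polynomial.C ((d : ℂ) * c)) * (Polynomial.X - Polynomial.C (ν₁ + c)) *
            (Polynomial.X - Polynomial.C (ν₂ + c)) ∧
        (ν₁ / ν₂).im ≠ 0) →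
    ∀ (Tan : (ℂ → (Fin 3 → ℂ)) → Prop), (∀ φ, Tan φ ↔
        (DifferentiableOn ℂ φ (Metric.ball (0 : ℂ) 1) ∧ ∀ t ∈ Metric.ball (0 : ℂ) 1,
          φ t ≠ 0 ∧ ¬ Sing (φ t) ∧ ∃ α β : ℂ, deriv φ t = α • φ t + β • V (φ t))) →
    ∀ (L : (Fin 3 → ℂ) → Prop) (p : Fin 3 → ℂ), p ≠ 0 → ¬ Sing p →
    (∀ q, L q ↔ Relation.ReflTransGen (fun x y => ∃ φ, Tan φ ∧ ∃ s ∈ Metric.ball (0 : ℂ) 1,
        ∃ t ∈ Metric.ball (0 : ℂ) 1, ∃ a b : ℂ, φ s = a • x ∧ φ t = b • y) p q) →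
    (¬ ∃ (k : ℕ) (P : MvPolynomial (Fin 3) ℂ), 0 < k ∧ P.IsHomogeneous k ∧ P ≠ 0 ∧
        ∀ q, L q → MvPolynomial.eval q P = 0) →
    ((¬ ∃ u : (Fin 3 → ℂ) → ℝ,
      (∃ M : ℝ, ∀ q, L q → |u q| ≤ M) ∧
      (∀ q, L q → ∀ c : ℂ, c ≠ 0 → u (c • q) = u q) ∧
      (∀ φ, Tan φ → (∀ t ∈ Metric.ball (0 : ℂ) 1, L (φ t)) →
        UpperSemicontinuousOn (fun t => u (φ t)) (Metric.ball (0 : ℂ) 1) ∧
        ∀ z : ℂ, ∀ r : ℝ, 0 < r → Metric.closedBall z r ⊆ Metric.ball (0 : ℂ) 1 →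
          2 * Real.pi * u (φ z) ≤
            intervalIntegral (fun θ => u (φ (circleMap z r θ))) 0 (2 * Real.pi) MeasureTheory.volume) ∧
      ∃ q₁ q₂, L q₁ ∧ L q₂ ∧ u q₁ ≠ u q₂) ↔
    ∃ (ν : ℂ) (a c : ℕ) (A B C D KA KB KC KD : MvPolynomial (Fin 3) ℂ), ν.im ≠ 0 ∧
      A.IsHomogeneous a ∧ B.IsHomogeneous a ∧ C.IsHomogeneous c ∧ D.IsHomogeneous c ∧
      ∑ i, F i * MvPolynomial.pderiv i A = KA * A ∧ ∑ i, F i * MvPolynomial.pderiv i B = KB * B ∧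
      ∑ i, F i * MvPolynomial.pderiv i C = KC * C ∧ ∑ i, F i * MvPolynomial.pderiv i D = KD * D ∧
      KA - KB = MvPolynomial.C ν * (KC - KD) ∧
      ∃ z : Fin 3 → ℂ, z 0 = 1 ∧ MvPolynomial.eval z
        ((MvPolynomial.pderiv 1 A * B - A * MvPolynomial.pderiv 1 B) *
            (MvPolynomial.pderiv 2 C * D - C * MvPolynomial.pderiv 2 D) -
          (MvPolynomial.pderiv 2 A * B - A * MvPolynomial.pderiv 2 B) *
            (MvPolynomial.pderiv 1 C * D - C * MvPolynomial.pderiv 1 D)) ≠ 0) := by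
  intro d F hd hF V hV Sing hSing hS hinv heig Tan hTan L p h0 hp hL hna
  obtain rfl : V = Pool.Agent.P.MP_a31c1c_an.VP F := funext fun z => funext fun i => hV z i
  obtain rfl : Sing = Pool.Agent.P.MP_a31c1c_an.SingP (Pool.Agent.P.MP_a31c1c_an.VP F) :=
    funext fun z => propext (hSing z)
  obtain rfl : Tan = Pool.Agent.P.MP_a31c1c_an.TanP (Pool.Agent.P.MP_a31c1c_an.VP F) :=
    funext fun φ => propext (hTan φ)
  obtain rfl : L = Pool.Agent.P.MP_a31c1c_an.LP (Pool.Agent.P.MP_a31c1c_an.VP F) p :=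
    funext fun q => propext (hL q)
  refine Pool.Agent.P.MP_a31c1c_an.Inf.main_iff hd hF hS hinv (fun a c ha a0 h => ?_) h0 hp hna
  obtain ⟨ν₁, ν₂, h1, h2⟩ := heig a c ha a0 h
  refine ⟨ν₁, ν₂, fun x => ?_, h2⟩
  rw [← Matrix.eval_charpoly, h1]
  simp

open Pool.Agent.P.MP_a31c1c_an Pool.Agent.P.MP_a31c1c_an.Inf in
/-- Not claimed: the parabolic case occurs in degree two, for the field
`(0, (1 + 2 i) z1 ^ 2 - z2 ^ 2, 2 i z1 z2)` and the leaf through `(1, 1, 2)`. -/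
theorem exception_occurs : ∃ (F : Fin 3 → MP) (p : E), (∀ i, (F i).IsHomogeneous 2) ∧
    (∃ S : Finset E, ∀ z, SingP (VP F) z → ∃ s ∈ S, ∃ t : ℂ, z = t • s) ∧
    (∀ z : E, z 0 = 0 → VP F z 0 = 0) ∧ EigI 2 F ∧ p ≠ 0 ∧ ¬ SingP (VP F) p ∧ NA F p ∧
    ¬ Concl (VP F) p := occurs

end Pool.Agent.Results.MP_a31c1c_an.ParabolicLeaves
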